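import Mathlib
import Pool.Agent.Q77.LU.StmH
import Pool.Agent.H906R3.YM.Adj
import Pool.Agent.H906R3.YM.Conc

/-!
# The derivative of the exponential of matrices (project LU, job KIN)
-/

set_option autoImplicit false

namespace Pool.Agent.Q230.LU

open Pool.Agent.H906R3
open MeasureTheory Matrix Set Filter Topology
open scoped ContDiff Matrix.Norms.Frobenius

noncomputable section

variable {N n : ℕ}

/-- Complex `N × N` matrices. -/
abbrev Mt (N : ℕ) := Matrix (Fin N) (Fin N) ℂ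

/-- the real scalar product -/
abbrev ip (A : Mt N) : Mt N →L[ℝ] ℝ := YM.ip A

lemma ip_self (A : Mt N) : ip A A = ‖A‖ ^ 2 := by
  rw [YM.ip_apply, ← YM.sum_co_sq, Matrix.frobenius_norm_def]
  rw [← Real.sqrt_eq_rpow, Real.sq_sqrt (by positivity)]
  rw [Fintype.sum_prod_type]
  refine Finset.sum_congr rfl fun i _ => ?_
  rw [Fintype.sum_prod_type]
  refine Finset.sum_congr rfl fun j _ => ?_
  simp only [Fintype.sum_bool]
  have h1 : YM.co (i, j, true) A = (A i j).re := rfl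
  have h2 : YM.co (i, j, false) A = (A i j).im := rfl
  rw [h1, h2]
  rw [show ((2 : ℝ)) = ((2 : ℕ) : ℝ) by norm_num, Real.rpow_natCast, ← Complex.normSq_eq_norm_sq,
    Complex.normSq_apply]
  ring

lemma ip_sub_sub (A B : Mt N) : ip (A - B) (A - B) = ip A A + ip B B - 2 * ip A B := by
  have h1 : ip (A - B) (A - B) = ip (A - B) A - ip (A - B) B := map_sub _ _ _
  have h2 : ip (A - B) A = ip A A - ip A B := by
    rw [YM.ip_comm, map_sub]
  have h3 : ip (A - B) B = ip A B - ip B B := by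
    rw [YM.ip_comm, map_sub, YM.ip_comm B A]
  rw [h1, h2, h3]; ring

lemma ip_le (A B : Mt N) : ip A B ≤ ‖A‖ * ‖B‖ := by
  by_cases hA : ‖A‖ = 0
  · have : A = 0 := norm_eq_zero.1 hA
    subst this
    rw [YM.ip_comm, map_zero]; simp
  by_cases hB : ‖B‖ = 0
  · have : B = 0 := norm_eq_zero.1 hB
    subst this
    rw [map_zero]; simp
  have hA' : 0 < ‖A‖ := lt_of_le_of_ne (norm_nonneg _) (Ne.symm hA)
  have hB' : 0 < ‖B‖ := lt_of_le_of_ne (norm_nonneg _) (Ne.symm hB)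
  have h := ip_self (‖B‖ • A - ‖A‖ • B)
  rw [ip_sub_sub] at h
  have h1 : ip (‖B‖ • A) (‖B‖ • A) = ‖B‖ ^ 2 * ip A A := by
    rw [map_smul, YM.ip_comm, map_smul]; simp only [smul_eq_mul]; ring
  have h2 : ip (‖A‖ • B) (‖A‖ • B) = ‖A‖ ^ 2 * ip B B := by
    rw [map_smul, YM.ip_comm, map_smul]; simp only [smul_eq_mul]; ring
  have h3 : ip (‖B‖ • A) (‖A‖ • B) = ‖A‖ * ‖B‖ * ip A B := by
    rw [map_smul, YM.ip_comm, map_smul, YM.ip_comm B A]; simp only [smul_eq_mul]; ring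
  rw [h1, h2, h3, ip_self, ip_self] at h
  have h4 : 0 ≤ ‖‖B‖ • A - ‖A‖ • B‖ ^ 2 := by positivity
  have h5 : 0 < ‖A‖ * ‖B‖ := by positivity
  nlinarith [h, h4, h5]

lemma ip_abs_le (A B : Mt N) : |ip A B| ≤ ‖A‖ * ‖B‖ := by
  rw [abs_le]
  refine ⟨?_, ip_le A B⟩
  have := ip_le A (-B)
  rw [map_neg, norm_neg] at this
  linarith

lemma norm_conj {U : Mt N} (h : U * Uᴴ = 1) (W : Mt N) : ‖U * W * Uᴴ‖ = ‖W‖ := by
  have h' : Uᴴ * U = 1 := mul_eq_one_comm.1 h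
  have h1 : ‖U * W * Uᴴ‖ ^ 2 = ‖W‖ ^ 2 := by
    rw [← ip_self, ← ip_self, YM.ip_conj]
    have e : Uᴴ * (U * W * Uᴴ) * U = W := by
      calc Uᴴ * (U * W * Uᴴ) * U = (Uᴴ * U) * W * (Uᴴ * U) := by noncomm_ring
        _ = W := by rw [h', one_mul, mul_one]
    rw [e]
  exact (sq_eq_sq₀ (norm_nonneg _) (norm_nonneg _)).1 h1

lemma exp_ct {Y : Mt N} (hY : Yᴴ = -Y) (s : ℝ) :
    (NormedSpace.exp (s • Y))ᴴ = NormedSpace.exp (-(s • Y)) := by
  rw [← Matrix.exp_conjTranspose, conjTranspose_smul, hY]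
  simp

lemma exp_unit {Y : Mt N} (hY : Yᴴ = -Y) (s : ℝ) :
    NormedSpace.exp (s • Y) * (NormedSpace.exp (s • Y))ᴴ = 1 := by
  rw [exp_ct hY, ← Matrix.exp_add_of_commute _ _ ((Commute.refl (s • Y)).neg_right),
    add_neg_cancel, NormedSpace.exp_zero]

/-- conjugation by `exp (s Y)` -/
def adE (Y W : Mt N) (s : ℝ) : Mt N := NormedSpace.exp (s • Y) * W * (NormedSpace.exp (s • Y))ᴴ

/-- the derivative of the exponential (times the inverse of the exponential) -/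
def ZZ (Y W : Mt N) : Mt N := ∫ s in (0 : ℝ)..1, adE Y W s

lemma exp_hasDeriv (Y : Mt N) (s : ℝ) :
    HasDerivAt (fun u : ℝ => NormedSpace.exp (u • Y)) (NormedSpace.exp (s • Y) * Y) s :=
  hasDerivAt_exp_smul_const (𝕂 := ℝ) Y s

lemma exp_cont : Continuous (fun A : Mt N => NormedSpace.exp A) := NormedSpace.exp_continuous

lemma adE_cont (Y W : Mt N) : Continuous (adE Y W) := by
  unfold adE
  have h1 : Continuous fun s : ℝ => NormedSpace.exp (s • Y) :=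
    exp_cont.comp (continuous_id.smul continuous_const)
  exact (h1.mul continuous_const).mul ((YM.ctL N).continuous.comp h1)

/-- the derivative of `exp` along a line -/
lemma deriv_line {Y V : Mt N} (hY : Yᴴ = -Y) :
    HasDerivAt (fun t : ℝ => NormedSpace.exp (Y + t • V)) (ZZ Y V * NormedSpace.exp Y) 0 := by
  set q : ℝ → Mt N := fun t => ∫ s in (0 : ℝ)..1,
    NormedSpace.exp (s • (Y + t • V)) * V * NormedSpace.exp (s • (-Y)) with hq
  have hYu : NormedSpace.exp (-Y) * NormedSpace.exp Y = 1 := by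
    rw [← Matrix.exp_add_of_commute _ _ ((Commute.refl Y).neg_left), neg_add_cancel,
      NormedSpace.exp_zero]
  have h1 : ∀ t : ℝ, NormedSpace.exp (Y + t • V) * NormedSpace.exp (-Y) - 1 = t • q t := by
    intro t
    have hd : ∀ s : ℝ, HasDerivAt (fun s : ℝ => NormedSpace.exp (s • (Y + t • V)) *
        NormedSpace.exp (s • (-Y)))
        (t • (NormedSpace.exp (s • (Y + t • V)) * V * NormedSpace.exp (s • (-Y)))) s := by
      intro s
      have e1 := exp_hasDeriv (Y + t • V) s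
      have e2 : HasDerivAt (fun u : ℝ => NormedSpace.exp (u • (-Y)))
          ((-Y) * NormedSpace.exp (s • (-Y))) s := hasDerivAt_exp_smul_const' (𝕂 := ℝ) (-Y) s
      refine (e1.mul e2).congr_deriv ?_
      have e3 : NormedSpace.exp (s • (Y + t • V)) * (Y + t • V) * NormedSpace.exp (s • (-Y)) +
          NormedSpace.exp (s • (Y + t • V)) * (-Y * NormedSpace.exp (s • (-Y))) =
          NormedSpace.exp (s • (Y + t • V)) * (t • V) * NormedSpace.exp (s • (-Y)) := by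
        noncomm_ring
      rw [e3, mul_smul_comm, smul_mul_assoc]
    have hc : Continuous fun s : ℝ =>
        (t • (NormedSpace.exp (s • (Y + t • V)) * V * NormedSpace.exp (s • (-Y)))) := by
      have h1 : Continuous fun s : ℝ => NormedSpace.exp (s • (Y + t • V)) :=
        exp_cont.comp (continuous_id.smul continuous_const)
      have h2 : Continuous fun s : ℝ => NormedSpace.exp (s • (-Y)) :=
        exp_cont.comp (continuous_id.smul continuous_const)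
      exact ((h1.mul continuous_const).mul h2).const_smul t
    have := intervalIntegral.integral_eq_sub_of_hasDerivAt (a := 0) (b := 1)
      (fun s _ => hd s) (hc.intervalIntegrable _ _)
    rw [intervalIntegral.integral_smul] at this
    rw [hq]
    simp only
    rw [this]
    simp
  have hqc : Continuous q := by
    refine intervalIntegral.continuous_parametric_intervalIntegral_of_continuous' ?_ 0 1
    have h1 : Continuous fun p : ℝ × ℝ => NormedSpace.exp (p.2 • (Y + p.1 • V)) :=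
      exp_cont.comp (continuous_snd.smul (continuous_const.add
        (continuous_fst.smul continuous_const)))
    have h2 : Continuous fun p : ℝ × ℝ => NormedSpace.exp (p.2 • (-Y)) :=
      exp_cont.comp (continuous_snd.smul continuous_const)
    exact (h1.mul continuous_const).mul h2
  have hq0 : q 0 = ZZ Y V := by
    rw [hq]
    unfold ZZ adE
    simp only [zero_smul, add_zero]
    refine intervalIntegral.integral_congr fun s _ => ?_
    simp only [exp_ct hY, smul_neg]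
  have h2 : ∀ t : ℝ, NormedSpace.exp (Y + t • V) = NormedSpace.exp Y + t • (q t *
      NormedSpace.exp Y) := by
    intro t
    have := h1 t
    have h3 : NormedSpace.exp (Y + t • V) = NormedSpace.exp (Y + t • V) *
        (NormedSpace.exp (-Y) * NormedSpace.exp Y) := by rw [hYu, mul_one]
    rw [h3, ← mul_assoc, sub_eq_iff_eq_add.1 this, add_mul, one_mul, smul_mul_assoc, add_comm]
  refine hasDerivAt_iff_tendsto_slope_zero.2 ?_
  have h3 : Tendsto (fun t : ℝ => q t * NormedSpace.exp Y) (𝓝[≠] 0)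
      (𝓝 (ZZ Y V * NormedSpace.exp Y)) := by
    rw [← hq0]
    exact ((hqc.mul continuous_const).tendsto 0).mono_left nhdsWithin_le_nhds
  refine h3.congr' ?_
  filter_upwards [self_mem_nhdsWithin] with t ht
  have ht' : t ≠ 0 := ht
  rw [zero_add, h2 t, zero_smul, add_zero, add_sub_cancel_left, smul_smul, inv_mul_cancel₀ ht',
    one_smul]

/-! ### bounds -/

lemma adE_norm {Y : Mt N} (hY : Yᴴ = -Y) (W : Mt N) (s : ℝ) : ‖adE Y W s‖ = ‖W‖ :=
  norm_conj (exp_unit hY s) W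

lemma adE_hasDeriv {Y : Mt N} (hY : Yᴴ = -Y) (W : Mt N) (s : ℝ) :
    HasDerivAt (adE Y W) (adE Y (Y * W - W * Y) s) s := by
  have e1 := exp_hasDeriv Y s
  have e2 : HasDerivAt (fun u : ℝ => (NormedSpace.exp (u • Y))ᴴ)
      ((NormedSpace.exp (s • Y) * Y)ᴴ) s := (YM.ctL N).hasFDerivAt.comp_hasDerivAt s e1
  refine ((e1.mul_const W).mul e2).congr_deriv ?_
  unfold adE
  rw [conjTranspose_mul, hY]
  noncomm_ring

lemma adE_zero (Y W : Mt N) : adE Y W 0 = W := by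
  unfold adE
  rw [zero_smul, NormedSpace.exp_zero, conjTranspose_one, one_mul, mul_one]

lemma adE_sub {Y : Mt N} (hY : Yᴴ = -Y) (W : Mt N) {s : ℝ} (hs : 0 ≤ s) (hs1 : s ≤ 1) :
    ‖adE Y W s - W‖ ≤ 2 * ‖Y‖ * ‖W‖ := by
  have h := (convex_Icc (0 : ℝ) 1).norm_image_sub_le_of_norm_hasDerivWithin_le
    (f := adE Y W) (f' := fun s => adE Y (Y * W - W * Y) s) (C := 2 * ‖Y‖ * ‖W‖)
    (x := 0) (y := s) (fun x _ => (adE_hasDeriv hY W x).hasDerivWithinAt) (fun x _ => by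
      rw [adE_norm hY]
      have h1 : ‖Y * W‖ ≤ ‖Y‖ * ‖W‖ := norm_mul_le _ _
      have h2 : ‖W * Y‖ ≤ ‖W‖ * ‖Y‖ := norm_mul_le _ _
      have h3 : ‖Y * W - W * Y‖ ≤ ‖Y * W‖ + ‖W * Y‖ := norm_sub_le _ _
      linarith [mul_comm ‖W‖ ‖Y‖]) (by simp) ⟨hs, hs1⟩
  rw [adE_zero, sub_zero, Real.norm_eq_abs, abs_of_nonneg hs] at h
  refine h.trans ?_
  have : 0 ≤ 2 * ‖Y‖ * ‖W‖ := by positivity
  nlinarith

lemma ZZ_norm {Y : Mt N} (hY : Yᴴ = -Y) (W : Mt N) : ‖ZZ Y W‖ ≤ ‖W‖ := by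
  have h := intervalIntegral.norm_integral_le_of_norm_le_const (a := (0 : ℝ)) (b := 1)
    (f := adE Y W) (C := ‖W‖) (fun s _ => (adE_norm hY W s).le)
  rw [sub_zero, abs_one, mul_one] at h
  exact h

lemma ZZ_sub {Y : Mt N} (hY : Yᴴ = -Y) (W : Mt N) : ‖ZZ Y W - W‖ ≤ 2 * ‖Y‖ * ‖W‖ := by
  have h1 : ZZ Y W - W = ∫ s in (0 : ℝ)..1, (adE Y W s - W) := by
    unfold ZZ
    rw [intervalIntegral.integral_sub ((adE_cont Y W).intervalIntegrable _ _)
      (continuous_const.intervalIntegrable _ _)]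
    simp
  rw [h1]
  have h := intervalIntegral.norm_integral_le_of_norm_le_const (a := (0 : ℝ)) (b := 1)
    (f := fun s => adE Y W s - W) (C := 2 * ‖Y‖ * ‖W‖) (fun s hs => by
      rw [Set.uIoc_of_le zero_le_one] at hs
      exact adE_sub hY W hs.1.le hs.2)
  simpa using h

lemma ip_adE {Y : Mt N} (hY : Yᴴ = -Y) (W : Mt N) {s : ℝ} (hs : 0 ≤ s) (hs1 : s ≤ 1) :
    (1 - 2 * ‖Y‖ ^ 2) * ‖W‖ ^ 2 ≤ ip W (adE Y W s) := by
  have h1 := ip_sub_sub (adE Y W s) W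
  rw [ip_self, ip_self, ip_self, adE_norm hY, YM.ip_comm] at h1
  have h2 := adE_sub hY W hs hs1
  have h3 : ‖adE Y W s - W‖ ^ 2 ≤ (2 * ‖Y‖ * ‖W‖) ^ 2 := by gcongr
  nlinarith

lemma ip_ZZ {Y : Mt N} (A W : Mt N) : ip A (ZZ Y W) = ∫ s in (0 : ℝ)..1, ip A (adE Y W s) := by
  unfold ZZ
  exact ((ip A).intervalIntegral_comp_comm ((adE_cont Y W).intervalIntegrable _ _)).symm

lemma ip_ZZ_ge {Y : Mt N} (hY : Yᴴ = -Y) (W : Mt N) :
    (1 - 2 * ‖Y‖ ^ 2) * ‖W‖ ^ 2 ≤ ip W (ZZ Y W) := by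
  rw [ip_ZZ]
  have h := intervalIntegral.integral_mono_on (μ := volume) (a := (0 : ℝ)) (b := 1) zero_le_one
    (f := fun _ => (1 - 2 * ‖Y‖ ^ 2) * ‖W‖ ^ 2) (g := fun s => ip W (adE Y W s))
    (continuous_const.intervalIntegrable _ _)
    (((ip W).continuous.comp (adE_cont Y W)).intervalIntegrable _ _)
    (fun s hs => ip_adE hY W hs.1 hs.2)
  simpa using h

/-- The length of `ZZ Y W` is the length of `W` up to second order. -/
lemma ZZ_sq {Y : Mt N} (hY : Yᴴ = -Y) (W : Mt N) :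
    (1 - 4 * ‖Y‖ ^ 2) * ‖W‖ ^ 2 ≤ ‖ZZ Y W‖ ^ 2 := by
  have h1 := ip_ZZ_ge hY W
  have h2 := ip_le W (ZZ Y W)
  by_cases hW : ‖W‖ = 0
  · rw [hW]; nlinarith [sq_nonneg ‖ZZ Y W‖]
  have hW' : 0 < ‖W‖ := lt_of_le_of_ne (norm_nonneg _) (Ne.symm hW)
  have h3 : (1 - 2 * ‖Y‖ ^ 2) * ‖W‖ ≤ ‖ZZ Y W‖ := by
    have : (1 - 2 * ‖Y‖ ^ 2) * ‖W‖ * ‖W‖ ≤ ‖ZZ Y W‖ * ‖W‖ := by nlinarith
    exact le_of_mul_le_mul_right this hW'
  by_cases hc : 1 - 4 * ‖Y‖ ^ 2 ≤ 0
  · nlinarith [sq_nonneg ‖ZZ Y W‖, sq_nonneg ‖W‖]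
  · push Not at hc
    have h4 : 0 ≤ (1 - 2 * ‖Y‖ ^ 2) * ‖W‖ := by
      have : 0 ≤ 1 - 2 * ‖Y‖ ^ 2 := by nlinarith [sq_nonneg ‖Y‖]
      positivity
    have h5 : ((1 - 2 * ‖Y‖ ^ 2) * ‖W‖) ^ 2 ≤ ‖ZZ Y W‖ ^ 2 := by gcongr
    refine le_trans ?_ h5
    have h6 : ((1 - 2 * ‖Y‖ ^ 2) * ‖W‖) ^ 2 = (1 - 4 * ‖Y‖ ^ 2) * ‖W‖ ^ 2 +
        4 * (‖Y‖ ^ 2) ^ 2 * ‖W‖ ^ 2 := by ring
    rw [h6]
    have : 0 ≤ 4 * (‖Y‖ ^ 2) ^ 2 * ‖W‖ ^ 2 := by positivity
    linarith

/-- The adjoint of `ZZ Y` is `ZZ (-Y)`. -/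
lemma ZZ_adj {Y : Mt N} (hY : Yᴴ = -Y) (V W : Mt N) : ip V (ZZ (-Y) W) = ip W (ZZ Y V) := by
  rw [ip_ZZ, ip_ZZ]
  refine intervalIntegral.integral_congr fun s _ => ?_
  show ip V (adE (-Y) W s) = ip W (adE Y V s)
  unfold adE
  rw [YM.ip_conj, YM.ip_comm]
  have h1 : (NormedSpace.exp (s • -Y))ᴴ = NormedSpace.exp (s • Y) := by
    have h : (-Y)ᴴ = -(-Y) := by rw [conjTranspose_neg, hY]
    rw [exp_ct h, smul_neg, neg_neg]
  have h2 : NormedSpace.exp (s • -Y) = (NormedSpace.exp (s • Y))ᴴ := by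
    rw [exp_ct hY, smul_neg]
  rw [h1, h2]

end

end Pool.Agent.Q230.LU
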