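import Mathlib
import Pool.Agent.Q230.LU.Dexp

/-!
# The derivative of the exponential in a closed subgroup of `U(N)` (project LU, job KIN)
-/

set_option autoImplicit false

namespace Pool.Agent.Q230.LU

open Pool.Agent.H906R3 Pool.Agent.Q77.LU
open MeasureTheory Matrix Set Filter Topology
open scoped ContDiff Matrix.Norms.Frobenius

noncomputable section

variable {N n : ℕ} {G : Subgroup (UU N)}

/-- The same data in the form used by the helper files. -/
def fm (B : LieBasis G n) : YM.Frame G n where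
  X := B.X
  ex := B.ex
  ex_eq := B.ex_eq
  orth := B.orth
  full := B.full

/-- the Lie algebra -/
abbrev SS (B : LieBasis G n) : Submodule ℝ (Matrix (Fin N) (Fin N) ℂ) :=
  Submodule.span ℝ (Set.range B.X)

variable (B : LieBasis G n)

lemma skewX (a : Fin n) : (B.X a)ᴴ = -B.X a := (fm B).skewX a

lemma lin_skew (v : Fin n → ℝ) : (lin B v)ᴴ = -lin B v := by
  unfold lin
  rw [conjTranspose_sum, ← Finset.sum_neg_distrib]
  refine Finset.sum_congr rfl fun a _ => ?_
  rw [conjTranspose_smul, skewX]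
  simp

lemma lin_mem (v : Fin n → ℝ) : lin B v ∈ SS B :=
  Submodule.sum_mem _ fun a _ => Submodule.smul_mem _ _ (Submodule.subset_span ⟨a, rfl⟩)

lemma lin_add (v w : Fin n → ℝ) : lin B (v + w) = lin B v + lin B w := by
  unfold lin
  rw [← Finset.sum_add_distrib]
  exact Finset.sum_congr rfl fun a _ => add_smul _ _ _

lemma lin_smul (t : ℝ) (v : Fin n → ℝ) : lin B (t • v) = t • lin B v := by
  unfold lin
  rw [Finset.smul_sum]
  exact Finset.sum_congr rfl fun a _ => by rw [Pi.smul_apply, smul_assoc]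

lemma lin_neg (v : Fin n → ℝ) : lin B (-v) = -lin B v := by
  have := lin_smul B (-1) v
  simpa using this

lemma lin_sub (v w : Fin n → ℝ) : lin B (v - w) = lin B v - lin B w := by
  rw [sub_eq_add_neg, lin_add, lin_neg, ← sub_eq_add_neg]

lemma ip_lin_right (A : Matrix (Fin N) (Fin N) ℂ) (w : Fin n → ℝ) :
    ip A (lin B w) = ∑ a, w a * ip A (B.X a) := by
  unfold lin
  rw [map_sum]
  exact Finset.sum_congr rfl fun a _ => by rw [map_smul, smul_eq_mul]

lemma ip_X (a b : Fin n) : ip (B.X a) (B.X b) = if a = b then 1 else 0 := B.orth a b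

lemma ip_X_lin (a : Fin n) (w : Fin n → ℝ) : ip (B.X a) (lin B w) = w a := by
  rw [ip_lin_right]
  simp only [ip_X, mul_ite, mul_one, mul_zero, Finset.sum_ite_eq, Finset.mem_univ, if_true]

lemma ip_lin_left (v : Fin n → ℝ) (A : Matrix (Fin N) (Fin N) ℂ) :
    ip (lin B v) A = ∑ a, v a * ip (B.X a) A := by
  rw [YM.ip_comm, ip_lin_right]
  exact Finset.sum_congr rfl fun a _ => by rw [YM.ip_comm]

lemma lin_co {W : Matrix (Fin N) (Fin N) ℂ} (hW : W ∈ SS B) :
    lin B (fun a => ip (B.X a) W) = W := by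
  obtain ⟨c, hc⟩ := (Submodule.mem_span_range_iff_exists_fun ℝ).1 hW
  have h1 : W = lin B c := hc.symm
  rw [h1]
  congr 1
  funext a
  exact ip_X_lin B a c

lemma norm_lin_sq (v : Fin n → ℝ) : ‖lin B v‖ ^ 2 = n2 v := by
  rw [← ip_self, ip_lin_left]
  unfold n2
  refine Finset.sum_congr rfl fun a _ => ?_
  rw [ip_X_lin, sq]

lemma norm_lin (v : Fin n → ℝ) : ‖lin B v‖ = nr v := by
  unfold nr
  rw [← norm_lin_sq B, Real.sqrt_sq (norm_nonneg _)]

lemma n2_co {W : Matrix (Fin N) (Fin N) ℂ} (hW : W ∈ SS B) :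
    n2 (fun a => ip (B.X a) W) = ‖W‖ ^ 2 := by
  rw [← norm_lin_sq B, lin_co B hW]

lemma conj_span (g : G) {W : Matrix (Fin N) (Fin N) ℂ} (hW : W ∈ SS B) :
    mt g * W * (mt g)ᴴ ∈ SS B := by
  obtain ⟨c, hc⟩ := (Submodule.mem_span_range_iff_exists_fun ℝ).1 hW
  rw [← hc, Finset.mul_sum, Finset.sum_mul]
  refine Submodule.sum_mem _ fun a _ => ?_
  rw [mul_smul_comm, smul_mul_assoc]
  exact Submodule.smul_mem _ _ ((fm B).conj_mem g a)

lemma integral_mem {S : Submodule ℝ (Matrix (Fin N) (Fin N) ℂ)} {c : ℝ → Matrix (Fin N) (Fin N) ℂ}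
    (hc : ∀ t, c t ∈ S) (hcc : Continuous c) : (∫ s in (0 : ℝ)..1, c s) ∈ S := by
  by_contra hne
  obtain ⟨f, hf, hS⟩ := Submodule.exists_le_ker_of_notMem hne
  set F := LinearMap.toContinuousLinearMap f with hF
  have h1 : ∫ s in (0 : ℝ)..1, F (c s) = F (∫ s in (0 : ℝ)..1, c s) :=
    F.intervalIntegral_comp_comm (hcc.intervalIntegrable _ _)
  have h2 : (fun t => F (c t)) = fun _ => 0 := by
    funext t
    exact hS (hc t)
  rw [h2] at h1
  simp only [intervalIntegral.integral_zero] at h1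
  exact hf h1.symm

/-- The exponentials of the elements of the Lie algebra belong to `G`. -/
def HE (B : LieBasis G n) : Prop := ∀ v : Fin n → ℝ, ∃ g : G, mt g = NormedSpace.exp (lin B v)

variable {B} (hB : HE B)

include hB

lemma mt_eG (v : Fin n → ℝ) : mt (eG B v) = NormedSpace.exp (lin B v) := by
  unfold eG
  rw [dif_pos (hB v)]
  exact (hB v).choose_spec

lemma ZZ_mem (y w : Fin n → ℝ) : ZZ (lin B y) (lin B w) ∈ SS B := by
  refine integral_mem (fun s => ?_) (adE_cont _ _)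
  unfold adE
  obtain ⟨g, hg⟩ := hB (s • y)
  rw [← lin_smul, ← hg]
  exact conj_span B g (lin_mem B w)

omit hB

/-- coordinates of the derivative of the exponential -/
def zc (B : LieBasis G n) (y w : Fin n → ℝ) : Fin n → ℝ :=
  fun a => ip (B.X a) (ZZ (lin B y) (lin B w))

include hB

lemma lin_zc (y w : Fin n → ℝ) : lin B (zc B y w) = ZZ (lin B y) (lin B w) :=
  lin_co B (ZZ_mem hB y w)

lemma n2_zc (y w : Fin n → ℝ) : n2 (zc B y w) = ‖ZZ (lin B y) (lin B w)‖ ^ 2 :=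
  n2_co B (ZZ_mem hB y w)

lemma n2_zc_le (y w : Fin n → ℝ) : n2 (zc B y w) ≤ n2 w := by
  rw [n2_zc hB, ← norm_lin_sq B]
  have := ZZ_norm (lin_skew B y) (lin B w)
  gcongr

lemma n2_zc_ge (y w : Fin n → ℝ) : (1 - 4 * n2 y) * n2 w ≤ n2 (zc B y w) := by
  rw [n2_zc hB, ← norm_lin_sq B w, ← norm_lin_sq B y]
  exact ZZ_sq (lin_skew B y) (lin B w)

omit hB in
lemma zc_adj (y v w : Fin n → ℝ) :
    ∑ a, v a * zc B (-y) w a = ∑ a, w a * zc B y v a := by
  have h := ZZ_adj (lin_skew B y) (lin B v) (lin B w)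
  rw [ip_lin_left, ip_lin_left] at h
  unfold zc
  rw [lin_neg]
  exact h

lemma zc_sub (y v : Fin n → ℝ) : n2 (fun a => zc B y v a - v a) ≤ 4 * n2 y * n2 v := by
  have h1 : (fun a => zc B y v a - v a) =
      fun a => ip (B.X a) (ZZ (lin B y) (lin B v) - lin B v) := by
    funext a
    rw [map_sub, ip_X_lin]
    rfl
  rw [h1, n2_co B (Submodule.sub_mem _ (ZZ_mem hB y v) (lin_mem B v))]
  have h2 := ZZ_sub (lin_skew B y) (lin B v)
  calc ‖ZZ (lin B y) (lin B v) - lin B v‖ ^ 2 ≤ (2 * ‖lin B y‖ * ‖lin B v‖) ^ 2 := by gcongr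
    _ = 4 * ‖lin B y‖ ^ 2 * ‖lin B v‖ ^ 2 := by ring
    _ = 4 * n2 y * n2 v := by rw [norm_lin_sq, norm_lin_sq]

lemma Ad_sub (y v : Fin n → ℝ) : n2 (fun a => Ad B (eG B y) v a - v a) ≤ 4 * n2 y * n2 v := by
  have h0 : mt (eG B y) * lin B v * (mt (eG B y))ᴴ = adE (lin B y) (lin B v) 1 := by
    unfold adE
    rw [mt_eG hB, one_smul]
  have h1 : (fun a => Ad B (eG B y) v a - v a) =
      fun a => ip (B.X a) (adE (lin B y) (lin B v) 1 - lin B v) := by
    funext a
    rw [map_sub, ip_X_lin, ← h0]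
    rfl
  rw [h1, n2_co B (Submodule.sub_mem _ (h0 ▸ conj_span B _ (lin_mem B v)) (lin_mem B v))]
  have h2 := adE_sub (lin_skew B y) (lin B v) zero_le_one le_rfl
  calc ‖adE (lin B y) (lin B v) 1 - lin B v‖ ^ 2 ≤ (2 * ‖lin B y‖ * ‖lin B v‖) ^ 2 := by gcongr
    _ = 4 * ‖lin B y‖ ^ 2 * ‖lin B v‖ ^ 2 := by ring
    _ = 4 * n2 y * n2 v := by rw [norm_lin_sq, norm_lin_sq]

end

end Pool.Agent.Q230.LU
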