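import Mathlib
import Pool.Agent.Q230.LU.Grp

/-!
# Chain rules for functions of the link variables (project LU, job KIN)
-/

set_option autoImplicit false

namespace Pool.Agent.Q230.LU

open Pool.Agent.H906R3 Pool.Agent.Q77.LU
open MeasureTheory Matrix Set Filter Topology
open scoped ContDiff Matrix.Norms.Frobenius

noncomputable section

variable {N n D l : ℕ} [NeZero l] {G : Subgroup (UU N)} (B : LieBasis G n)

lemma deriv_ex (a : Fin n) : HasDerivAt (fun t => mt (B.ex a t)) (B.X a) 0 :=
  (fm B).deriv_ex a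

lemma ex_zero (a : Fin n) : B.ex a 0 = 1 := (fm B).ex_zero a

lemma curve_deriv (U : Link D l → G) (e : Link D l) (a : Fin n) :
    HasDerivAt (fun t => fun e' : Link D l => mt (Function.update U e (B.ex a t * U e) e'))
      (Pi.single e (B.X a * mt (U e))) 0 := by
  refine hasDerivAt_pi.2 fun e' => ?_
  by_cases h : e' = e
  · subst h
    simp only [Function.update_self, Pi.single_eq_same]
    exact (deriv_ex B a).mul_const (mt (U e'))
  · simp only [Function.update_of_ne h, Pi.single_eq_of_ne h]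
    exact hasDerivAt_const _ _

variable {f : (Link D l → Matrix (Fin N) (Fin N) ℂ) → ℝ} (hf : ContDiff ℝ ∞ f)
  {F : (Link D l → G) → ℝ} (hF : ∀ U, F U = f fun e => mt (U e))

include hf hF

lemma dlink_eq (e : Link D l) (a : Fin n) (U : Link D l → G) :
    dlink B e a F U = fderiv ℝ f (fun e => mt (U e)) (Pi.single e (B.X a * mt (U e))) := by
  unfold dlink
  simp only [hF]
  have h2 : HasFDerivAt f (fderiv ℝ f fun e => mt (U e))
      (fun e' : Link D l => mt (Function.update U e (B.ex a 0 * U e) e')) := by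
    rw [ex_zero, one_mul, Function.update_eq_self]
    exact (hf.differentiable (by simp)).differentiableAt.hasFDerivAt
  exact (h2.comp_hasDerivAt (0 : ℝ) (curve_deriv B U e a)).deriv

/-- the derivative in the direction `W_e U_e`, `W_e` in the Lie algebra -/
lemma fderiv_dir (U : Link D l → G) (W : Link D l → Matrix (Fin N) (Fin N) ℂ)
    (hW : ∀ e, W e ∈ SS B) :
    fderiv ℝ f (fun e => mt (U e)) (fun e => W e * mt (U e)) =
      ∑ e, ∑ a, ip (B.X a) (W e) * dlink B e a F U := by
  have h1 : (fun e => W e * mt (U e)) = ∑ e, ∑ a, ip (B.X a) (W e) •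
      (Pi.single e (B.X a * mt (U e)) : Link D l → Matrix (Fin N) (Fin N) ℂ) := by
    funext e'
    rw [Finset.sum_apply, Finset.sum_eq_single e']
    · rw [Finset.sum_apply]
      simp only [Pi.smul_apply, Pi.single_eq_same]
      conv_lhs => rw [← lin_co B (hW e')]
      unfold lin
      rw [Finset.sum_mul]
      exact Finset.sum_congr rfl fun a _ => by rw [smul_mul_assoc]
    · intro e _ he
      rw [Finset.sum_apply]
      refine Finset.sum_eq_zero fun a _ => ?_
      rw [Pi.smul_apply, Pi.single_eq_of_ne he.symm, smul_zero]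
    · intro h; exact absurd (Finset.mem_univ _) h
  rw [h1, map_sum]
  refine Finset.sum_congr rfl fun e _ => ?_
  rw [map_sum]
  refine Finset.sum_congr rfl fun a _ => ?_
  rw [map_smul, smul_eq_mul, dlink_eq B hf hF]

variable {B} (hB : HE B)

include hB

/-- derivative along `exp (y + t v)` -/
lemma deriv_eU (y v : Link D l × Fin n → ℝ) :
    HasDerivAt (fun t : ℝ => F (eU B (y + t • v)))
      (∑ e, ∑ a, zc B (fun a => y (e, a)) (fun a => v (e, a)) a * dlink B e a F (eU B y)) 0 := by
  have h1 : HasDerivAt (fun t : ℝ => fun e : Link D l => mt (eU B (y + t • v) e))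
      (fun e => ZZ (lin B fun a => y (e, a)) (lin B fun a => v (e, a)) * mt (eU B y e)) 0 := by
    refine hasDerivAt_pi.2 fun e => ?_
    have h2 : (fun t : ℝ => mt (eU B (y + t • v) e)) = fun t : ℝ =>
        NormedSpace.exp ((lin B fun a => y (e, a)) + t • (lin B fun a => v (e, a))) := by
      funext t
      unfold eU
      rw [mt_eG hB, ← lin_smul, ← lin_add]
      rfl
    have h3 : mt (eU B y e) = NormedSpace.exp (lin B fun a => y (e, a)) := by
      unfold eU
      rw [mt_eG hB]
    rw [h2, h3]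
    exact deriv_line (lin_skew B _)
  have h4 : HasFDerivAt f (fderiv ℝ f fun e => mt (eU B y e))
      (fun e : Link D l => mt (eU B (y + (0 : ℝ) • v) e)) := by
    rw [zero_smul, add_zero]
    exact (hf.differentiable (by simp)).differentiableAt.hasFDerivAt
  have h5 := h4.comp_hasDerivAt (0 : ℝ) h1
  have h6 := fderiv_dir B hf hF (eU B y)
    (fun e => ZZ (lin B fun a => y (e, a)) (lin B fun a => v (e, a))) (fun e => ZZ_mem hB _ _)
  have h7 := h5.congr_deriv h6
  have h8 : (fun t : ℝ => F (eU B (y + t • v))) =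
      f ∘ fun t : ℝ => fun e : Link D l => mt (eU B (y + t • v) e) := by
    funext t; exact hF _
  rw [h8]
  exact h7

omit hf hF [NeZero l] in
lemma eG_zero : eG B (0 : Fin n → ℝ) = 1 := by
  apply Subtype.ext
  apply Subtype.ext
  have := mt_eG hB (0 : Fin n → ℝ)
  have h0 : lin B (0 : Fin n → ℝ) = 0 := by unfold lin; simp
  rw [h0, NormedSpace.exp_zero] at this
  exact this

/-- consequence of the gauge invariance -/
lemma gauge_zero (hg : GaugeInv F) (ζ : (Fin D → ZMod l) × Fin n → ℝ) (U : Link D l → G) :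
    ∑ e : Link D l, ∑ a, (ζ (e.1, a) - Ad B (U e) (fun a => ζ (e.1 + unitv e.2, a)) a) *
      dlink B e a F U = 0 := by
  set γ : ℝ → (Fin D → ZMod l) → G := fun t x => eG B (t • fun a => ζ (x, a)) with hγ
  have hm : ∀ t x, mt (γ t x) = NormedSpace.exp (t • lin B fun a => ζ (x, a)) := by
    intro t x
    rw [hγ]
    simp only
    rw [mt_eG hB, lin_smul]
  have hd : ∀ x, HasDerivAt (fun t => mt (γ t x)) (lin B fun a => ζ (x, a)) 0 := by
    intro x
    simp only [hm]
    have h := exp_hasDeriv (lin B fun a => ζ (x, a)) 0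
    rwa [zero_smul, NormedSpace.exp_zero, one_mul] at h
  have hd' : ∀ x, HasDerivAt (fun t => (mt (γ t x))ᴴ) (-(lin B fun a => ζ (x, a))) 0 := by
    intro x
    have h : HasDerivAt (fun t => (mt (γ t x))ᴴ) ((lin B fun a => ζ (x, a))ᴴ) 0 :=
      (YM.ctL N).hasFDerivAt.comp_hasDerivAt (0 : ℝ) (hd x)
    rwa [lin_skew] at h
  have hu : ∀ g : G, mt g * (mt g)ᴴ = 1 := fun g => YM.rhoG_unit g
  have hu' : ∀ g : G, (mt g)ᴴ * mt g = 1 := fun g => YM.rhoG_unit' g
  have h0 : ∀ x, γ 0 x = 1 := by
    intro x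
    rw [hγ]
    simp only [zero_smul]
    exact eG_zero hB
  have hm1 : mt (1 : G) = 1 := rfl
  have h1 : HasDerivAt (fun t : ℝ => fun e : Link D l => mt (Q77.LU.gauge (γ t) U e))
      (fun e => ((lin B fun a => ζ (e.1, a)) -
        mt (U e) * (lin B fun a => ζ (e.1 + unitv e.2, a)) * (mt (U e))ᴴ) * mt (U e)) 0 := by
    refine hasDerivAt_pi.2 fun e => ?_
    have h2 : (fun t : ℝ => mt (Q77.LU.gauge (γ t) U e)) = fun t : ℝ =>
        mt (γ t e.1) * mt (U e) * (mt (γ t (e.1 + unitv e.2)))ᴴ := rfl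
    rw [h2]
    refine (((hd e.1).mul_const (mt (U e))).mul (hd' (e.1 + unitv e.2))).congr_deriv ?_
    rw [h0, h0, hm1, conjTranspose_one, mul_one, one_mul, sub_mul]
    have h3 : mt (U e) * (lin B fun a => ζ (e.1 + unitv e.2, a)) * (mt (U e))ᴴ * mt (U e) =
        mt (U e) * (lin B fun a => ζ (e.1 + unitv e.2, a)) * ((mt (U e))ᴴ * mt (U e)) := by
      rw [mul_assoc]
    rw [h3, hu', mul_one, mul_neg, sub_eq_add_neg]
  have hg0 : Q77.LU.gauge (γ 0) U = U := by
    funext e
    unfold Q77.LU.gauge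
    rw [h0, h0]
    simp
  have h4 : HasFDerivAt f (fderiv ℝ f fun e => mt (U e))
      (fun e : Link D l => mt (Q77.LU.gauge (γ 0) U e)) := by
    rw [hg0]
    exact (hf.differentiable (by simp)).differentiableAt.hasFDerivAt
  have h5 := h4.comp_hasDerivAt (0 : ℝ) h1
  have h8 := fderiv_dir B hf hF U (fun e => (lin B fun a => ζ (e.1, a)) -
    mt (U e) * (lin B fun a => ζ (e.1 + unitv e.2, a)) * (mt (U e))ᴴ)
    (fun e => Submodule.sub_mem _ (lin_mem B _) (conj_span B _ (lin_mem B _)))
  have h9 := h5.congr_deriv h8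
  have h6 : (f ∘ fun t : ℝ => fun e : Link D l => mt (Q77.LU.gauge (γ t) U e)) = fun _ => F U := by
    funext t
    rw [Function.comp, ← hF, hg]
  rw [h6] at h9
  have h7 := h9.unique (hasDerivAt_const (0 : ℝ) (F U))
  rw [← h7]
  refine Finset.sum_congr rfl fun e _ => Finset.sum_congr rfl fun a _ => ?_
  congr 1
  rw [map_sub, ip_X_lin]
  rfl

end

end Pool.Agent.Q230.LU
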