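import Mathlib
import Pool.Agent.Q230.LU.Chain

/-!
# The kinetic energy in the chart (project LU, job KIN)
-/

set_option autoImplicit false

namespace Pool.Agent.Q230.LU

open Pool.Agent.H906R3 Pool.Agent.Q77.LU
open MeasureTheory Matrix Set Filter Topology
open scoped ContDiff Matrix.Norms.Frobenius

noncomputable section

/-! ### a bounded inverse -/

lemma norm_sq_le_n2 {ι : Type} [Fintype ι] (x : ι → ℝ) : ‖x‖ ^ 2 ≤ n2 x := by
  have h : ‖x‖ ≤ Real.sqrt (n2 x) := by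
    rw [pi_norm_le_iff_of_nonneg (Real.sqrt_nonneg _)]
    intro i
    rw [Real.norm_eq_abs]
    refine Real.abs_le_sqrt ?_
    exact Finset.single_le_sum (f := fun i => x i ^ 2) (fun _ _ => sq_nonneg _) (Finset.mem_univ i)
  have h0 : 0 ≤ n2 x := Finset.sum_nonneg fun _ _ => sq_nonneg _
  calc ‖x‖ ^ 2 ≤ Real.sqrt (n2 x) ^ 2 := by gcongr
    _ = n2 x := Real.sq_sqrt h0

lemma n2_le_norm_sq {ι : Type} [Fintype ι] (x : ι → ℝ) : n2 x ≤ Fintype.card ι * ‖x‖ ^ 2 := by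
  unfold n2
  have : ∀ i ∈ (Finset.univ : Finset ι), x i ^ 2 ≤ ‖x‖ ^ 2 := fun i _ => by
    have := norm_le_pi_norm x i
    rw [Real.norm_eq_abs] at this
    rw [← sq_abs]
    gcongr
  calc ∑ i, x i ^ 2 ≤ ∑ _i : ι, ‖x‖ ^ 2 := Finset.sum_le_sum this
    _ = Fintype.card ι * ‖x‖ ^ 2 := by simp

lemma bdd_inv {ι κ : Type} [Fintype ι] [Fintype κ] (T : (ι → ℝ) →ₗ[ℝ] (κ → ℝ)) :
    ∃ K : ℝ, 0 ≤ K ∧ ∀ x, ∃ x', T x' = T x ∧ n2 x' ≤ K * n2 (T x) := by
  obtain ⟨R, hR⟩ := T.rangeRestrict.exists_rightInverse_of_surjective T.range_rangeRestrict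
  set R' := LinearMap.toContinuousLinearMap R
  refine ⟨Fintype.card ι * ‖R'‖ ^ 2, by positivity, fun x => ⟨R (T.rangeRestrict x), ?_, ?_⟩⟩
  · have := LinearMap.congr_fun hR (T.rangeRestrict x)
    exact congrArg Subtype.val this
  · have h1 : ‖R (T.rangeRestrict x)‖ ≤ ‖R'‖ * ‖T.rangeRestrict x‖ := R'.le_opNorm _
    have h2 : ‖T.rangeRestrict x‖ = ‖T x‖ := rfl
    calc n2 (R (T.rangeRestrict x)) ≤ Fintype.card ι * ‖R (T.rangeRestrict x)‖ ^ 2 :=
          n2_le_norm_sq _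
      _ ≤ Fintype.card ι * (‖R'‖ * ‖T x‖) ^ 2 := by rw [← h2]; gcongr
      _ = Fintype.card ι * ‖R'‖ ^ 2 * ‖T x‖ ^ 2 := by ring
      _ ≤ Fintype.card ι * ‖R'‖ ^ 2 * n2 (T x) := by
          gcongr
          exact norm_sq_le_n2 _

/-! ### the decomposition -/

variable {N n D l : ℕ} [NeZero l] {G : Subgroup (UU N)} {B : LieBasis G n}

/-- the lattice gradient -/
def grd (n D l : ℕ) : ((Fin D → ZMod l) × Fin n → ℝ) →ₗ[ℝ] (Link D l × Fin n → ℝ) where
  toFun ζ p := ζ (p.1.1 + unitv p.1.2, p.2) - ζ (p.1.1, p.2)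
  map_add' ζ ζ' := by funext p; simp only [Pi.add_apply]; ring
  map_smul' c ζ := by funext p; simp only [Pi.smul_apply, smul_eq_mul, RingHom.id_apply]; ring

lemma sum_link {M : Type*} [AddCommMonoid M] (φ : Link D l × Fin n → M) :
    ∑ p, φ p = ∑ j : Fin D, ∑ a : Fin n, ∑ x : Fin D → ZMod l, φ ((x, j), a) := by
  rw [Fintype.sum_prod_type]
  rw [Fintype.sum_prod_type, Finset.sum_comm]
  refine Finset.sum_congr rfl fun j _ => ?_
  rw [Finset.sum_comm]

lemma sum_grd (j : Fin D) (ζ : (Fin D → ZMod l) × Fin n → ℝ) (a : Fin n) :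
    ∑ x : Fin D → ZMod l, (ζ (x + unitv j, a) - ζ (x, a)) = 0 := by
  rw [Finset.sum_sub_distrib, sub_eq_zero]
  exact Equiv.sum_comp (Equiv.addRight (unitv j)) fun x => ζ (x, a)

lemma cons_cons (C C' : Fin D × Fin n → ℝ) :
    ∑ p, cons D l C p * cons D l C' p = ∑ q, C q * C' q := by
  rw [sum_link, Fintype.sum_prod_type]
  refine Finset.sum_congr rfl fun j _ => Finset.sum_congr rfl fun a _ => ?_
  unfold cons
  simp only [Finset.sum_const, Finset.card_univ, nsmul_eq_mul]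
  have h1 : (Fintype.card (Fin D → ZMod l) : ℝ) = (l : ℝ) ^ D := by
    rw [Fintype.card_fun, ZMod.card, Fintype.card_fin]; push_cast; rfl
  have h2 : (0 : ℝ) < (l : ℝ) ^ D := by
    have : (0 : ℝ) < l := by exact_mod_cast Nat.pos_of_ne_zero (NeZero.ne l)
    positivity
  rw [h1]
  have h3 : (Real.sqrt ((l : ℝ) ^ D))⁻¹ * (Real.sqrt ((l : ℝ) ^ D))⁻¹ = ((l : ℝ) ^ D)⁻¹ := by
    rw [← mul_inv, Real.mul_self_sqrt h2.le]
  calc (l : ℝ) ^ D * ((Real.sqrt ((l : ℝ) ^ D))⁻¹ * C (j, a) *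
        ((Real.sqrt ((l : ℝ) ^ D))⁻¹ * C' (j, a)))
      = (l : ℝ) ^ D * ((Real.sqrt ((l : ℝ) ^ D))⁻¹ * (Real.sqrt ((l : ℝ) ^ D))⁻¹) *
        (C (j, a) * C' (j, a)) := by ring
    _ = C (j, a) * C' (j, a) := by rw [h3, mul_inv_cancel₀ h2.ne', one_mul]

lemma cons_b (dc : Dec B D l) (C : Fin D × Fin n → ℝ) (i : Fin dc.M) :
    ∑ p, cons D l C p * dc.b i p = 0 := by
  rw [sum_link]
  refine Finset.sum_eq_zero fun j _ => Finset.sum_eq_zero fun a _ => ?_
  unfold cons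
  simp only
  rw [← Finset.mul_sum, dc.mean, mul_zero]

lemma cons_grd (C : Fin D × Fin n → ℝ) (ζ : (Fin D → ZMod l) × Fin n → ℝ) :
    ∑ p, cons D l C p * grd n D l ζ p = 0 := by
  rw [sum_link]
  refine Finset.sum_eq_zero fun j _ => Finset.sum_eq_zero fun a _ => ?_
  unfold cons grd
  simp only [LinearMap.coe_mk, AddHom.coe_mk]
  rw [← Finset.mul_sum, sum_grd, mul_zero]

lemma b_grd (dc : Dec B D l) (i : Fin dc.M) (ζ : (Fin D → ZMod l) × Fin n → ℝ) :
    ∑ p, dc.b i p * grd n D l ζ p = 0 := by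
  rw [sum_link]
  unfold grd
  simp only [LinearMap.coe_mk, AddHom.coe_mk]
  have h1 : ∀ j a, ∑ x : Fin D → ZMod l, dc.b i ((x, j), a) * (ζ (x + unitv j, a) - ζ (x, a)) =
      ∑ x : Fin D → ZMod l, (dc.b i ((x - unitv j, j), a) - dc.b i ((x, j), a)) * ζ (x, a) := by
    intro j a
    simp only [mul_sub, sub_mul, Finset.sum_sub_distrib]
    congr 1
    have := Equiv.sum_comp (Equiv.addRight (unitv (l := l) j))
      fun x => dc.b i ((x - unitv j, j), a) * ζ (x, a)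
    simp only [Equiv.coe_addRight, add_sub_cancel_right] at this
    exact this
  simp only [h1]
  rw [Finset.sum_comm]
  refine Finset.sum_eq_zero fun a _ => ?_
  rw [Finset.sum_comm]
  refine Finset.sum_eq_zero fun x _ => ?_
  rw [← Finset.sum_mul]
  have h2 := dc.div i x a
  have h3 : ∑ j, (dc.b i ((x - unitv j, j), a) - dc.b i ((x, j), a)) =
      -∑ j : Fin D, (dc.b i ((x, j), a) - dc.b i ((x - unitv j, j), a)) := by
    rw [← Finset.sum_neg_distrib]
    exact Finset.sum_congr rfl fun j _ => by ring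
  rw [h3, h2, neg_zero, zero_mul]

/-- scalar products with a decomposed field -/
lemma ip_dec (dc : Dec B D l) (C : Fin D × Fin n → ℝ) (a : Fin dc.M → ℝ)
    (ζ : (Fin D → ZMod l) × Fin n → ℝ) (v : Link D l × Fin n → ℝ) :
    ∑ p, v p * (cons D l C p + ∑ i, a i * dc.b i p + grd n D l ζ p) =
      ∑ p, v p * cons D l C p + ∑ i, a i * ∑ p, v p * dc.b i p + ∑ p, v p * grd n D l ζ p := by
  simp only [mul_add, Finset.sum_add_distrib]
  congr 2
  simp only [Finset.mul_sum]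
  rw [Finset.sum_comm]
  exact Finset.sum_congr rfl fun i _ => Finset.sum_congr rfl fun p _ => by ring

section dec

variable (dc : Dec B D l) (C : Fin D × Fin n → ℝ) (a : Fin dc.M → ℝ)
  (ζ : (Fin D → ZMod l) × Fin n → ℝ) {u : Link D l × Fin n → ℝ}
  (hu : ∀ p, u p = cons D l C p + ∑ i, a i * dc.b i p + grd n D l ζ p)

include hu

lemma u_cons (C' : Fin D × Fin n → ℝ) : ∑ p, cons D l C' p * u p = ∑ q, C' q * C q := by
  simp only [hu]
  rw [ip_dec, cons_cons, cons_grd]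
  simp only [cons_b, mul_zero, Finset.sum_const_zero, add_zero]

lemma u_b (j : Fin dc.M) : ∑ p, dc.b j p * u p = a j := by
  simp only [hu]
  rw [ip_dec, b_grd]
  have h1 : ∑ p, dc.b j p * cons D l C p = 0 := by
    rw [← cons_b dc C j]
    exact Finset.sum_congr rfl fun p _ => mul_comm _ _
  rw [h1]
  simp only [dc.orth, mul_ite, mul_one, mul_zero, Finset.sum_ite_eq, Finset.mem_univ, if_true]
  ring

lemma u_grd (ζ' : (Fin D → ZMod l) × Fin n → ℝ) :
    ∑ p, grd n D l ζ' p * u p = ∑ p, grd n D l ζ' p * grd n D l ζ p := by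
  simp only [hu]
  rw [ip_dec]
  have h1 : ∑ p, grd n D l ζ' p * cons D l C p = 0 := by
    rw [← cons_grd C ζ']
    exact Finset.sum_congr rfl fun p _ => mul_comm _ _
  have h2 : ∀ i, ∑ p, grd n D l ζ' p * dc.b i p = 0 := fun i => by
    rw [← b_grd dc i ζ']
    exact Finset.sum_congr rfl fun p _ => mul_comm _ _
  rw [h1]
  simp only [h2, mul_zero, Finset.sum_const_zero, zero_add]

lemma u_sq : ∑ p, u p ^ 2 = ∑ q, C q ^ 2 + ∑ i, a i ^ 2 + ∑ p, grd n D l ζ p ^ 2 := by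
  have h1 : ∑ p, u p ^ 2 = ∑ p, u p * (cons D l C p + ∑ i, a i * dc.b i p + grd n D l ζ p) := by
    refine Finset.sum_congr rfl fun p _ => ?_
    rw [← hu, sq]
  rw [h1, ip_dec]
  have h2 : ∑ p, u p * cons D l C p = ∑ q, C q ^ 2 := by
    rw [show ∑ p, u p * cons D l C p = ∑ p, cons D l C p * u p from
      Finset.sum_congr rfl fun p _ => mul_comm _ _, u_cons dc C a ζ hu]
    exact Finset.sum_congr rfl fun q _ => (sq _).symm
  have h3 : ∀ i, ∑ p, u p * dc.b i p = a i := fun i => by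
    rw [show ∑ p, u p * dc.b i p = ∑ p, dc.b i p * u p from
      Finset.sum_congr rfl fun p _ => mul_comm _ _, u_b dc C a ζ hu]
  have h4 : ∑ p, u p * grd n D l ζ p = ∑ p, grd n D l ζ p ^ 2 := by
    rw [show ∑ p, u p * grd n D l ζ p = ∑ p, grd n D l ζ p * u p from
      Finset.sum_congr rfl fun p _ => mul_comm _ _, u_grd dc C a ζ hu]
    exact Finset.sum_congr rfl fun q _ => (sq _).symm
  rw [h2, h4]
  simp only [h3]
  congr 2
  exact Finset.sum_congr rfl fun q _ => (sq _).symm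

end dec

lemma xi_sq (dc : Dec B D l) (x : (Fin D × Fin n → ℝ) × (Fin dc.M → ℝ)) :
    ∑ p, dc.xi x p ^ 2 = nx x := by
  have h := u_sq dc x.1 x.2 0 (u := dc.xi x) (fun p => by
    rw [map_zero]; simp [Dec.xi])
  rw [h, map_zero]
  simp [nx, n2]

/-! ### derivatives in the chart -/

lemma xi_line (dc : Dec B D l) (x c : (Fin D × Fin n → ℝ) × (Fin dc.M → ℝ)) (t : ℝ) :
    dc.xi (x + t • c) = dc.xi x + t • dc.xi c := by
  funext p
  unfold Dec.xi cons
  simp only [Prod.fst_add, Prod.snd_add, Prod.smul_fst, Prod.smul_snd, Pi.add_apply,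
    Pi.smul_apply, smul_eq_mul, add_mul, Finset.sum_add_distrib, mul_add, Finset.mul_sum]
  have : ∀ i, t * c.2 i * dc.b i p = t * (c.2 i * dc.b i p) := fun i => by ring
  simp only [this]
  ring

lemma diff_ch {f : (Link D l → Matrix (Fin N) (Fin N) ℂ) → ℝ} (hf : ContDiff ℝ ∞ f)
    {F : (Link D l → G) → ℝ} (hF : ∀ U, F U = f fun e => mt (U e)) (hB : HE B)
    (dc : Dec B D l) : Differentiable ℝ fun z => F (dc.ch z) := by
  have h1 : (fun z => F (dc.ch z)) = fun z => f fun e =>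
      NormedSpace.exp (lin B fun a => dc.xi z (e, a)) := by
    funext z
    rw [hF]
    congr 1
    funext e
    exact mt_eG hB _
  rw [h1]
  refine (hf.differentiable (by simp)).comp (differentiable_pi.2 fun e => ?_)
  have h2 : Differentiable ℝ fun A : Matrix (Fin N) (Fin N) ℂ => NormedSpace.exp A :=
    fun A => (NormedSpace.exp_analytic (𝕂 := ℝ) A).differentiableAt
  refine h2.comp ?_
  unfold lin Dec.xi cons
  fun_prop

variable {f : (Link D l → Matrix (Fin N) (Fin N) ℂ) → ℝ} (hf : ContDiff ℝ ∞ f)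
  {F : (Link D l → G) → ℝ} (hF : ∀ U, F U = f fun e => mt (U e)) (hB : HE B)
  (dc : Dec B D l)

/-- the adjoint of the derivative of the chart -/
def uu (F : (Link D l → G) → ℝ) (dc : Dec B D l)
    (x : (Fin D × Fin n → ℝ) × (Fin dc.M → ℝ)) : Link D l × Fin n → ℝ :=
  fun p => zc B (-fun a => dc.xi x (p.1, a)) (fun a => dlink B p.1 a F (dc.ch x)) p.2

include hf hF hB

lemma fderiv_ch (x c : (Fin D × Fin n → ℝ) × (Fin dc.M → ℝ)) :
    fderiv ℝ (fun z => F (dc.ch z)) x c = ∑ p, dc.xi c p * uu F dc x p := by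
  have h1 : HasDerivAt (fun t : ℝ => x + t • c) c 0 := by
    have := ((hasDerivAt_id (0 : ℝ)).smul_const c).const_add x
    simpa using this
  have h2 : HasFDerivAt (fun z => F (dc.ch z)) (fderiv ℝ (fun z => F (dc.ch z)) x)
      (x + (0 : ℝ) • c) := by
    rw [zero_smul, add_zero]
    exact (diff_ch hf hF hB dc x).hasFDerivAt
  have h3 := h2.comp_hasDerivAt (0 : ℝ) h1
  have h4 := deriv_eU hf hF hB (dc.xi x) (dc.xi c)
  have h5 : ((fun z => F (dc.ch z)) ∘ fun t : ℝ => x + t • c) =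
      fun t : ℝ => F (eU B (dc.xi x + t • dc.xi c)) := by
    funext t
    simp only [Function.comp]
    unfold Dec.ch
    rw [xi_line]
  rw [h5] at h3
  rw [h3.unique h4, Fintype.sum_prod_type (f := fun p => dc.xi c p * uu F dc x p)]
  refine Finset.sum_congr rfl fun e _ => ?_
  have h6 := zc_adj (B := B) (fun a => dc.xi x (e, a)) (fun a => dc.xi c (e, a))
    (fun a => dlink B e a F (dc.ch x))
  unfold uu
  rw [h6]
  exact Finset.sum_congr rfl fun a _ => mul_comm _ _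

lemma gC_ch (C : Fin D × Fin n → ℝ) (a : Fin dc.M → ℝ) (ζ : (Fin D → ZMod l) × Fin n → ℝ)
    (x : (Fin D × Fin n → ℝ) × (Fin dc.M → ℝ))
    (hu : ∀ p, uu F dc x p = cons D l C p + ∑ i, a i * dc.b i p + grd n D l ζ p) :
    gC (fun z => F (dc.ch z)) x = ∑ q, C q ^ 2 := by
  unfold gC
  refine Finset.sum_congr rfl fun q _ => ?_
  rw [fderiv_ch hf hF hB]
  have h1 : ∀ p, dc.xi (Pi.single q 1, 0) p = cons D l (Pi.single q 1) p := by
    intro p
    simp [Dec.xi]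
  simp only [h1]
  rw [u_cons dc C a ζ hu]
  congr 1
  simp [Pi.single_apply]

lemma gA_ch (C : Fin D × Fin n → ℝ) (a : Fin dc.M → ℝ) (ζ : (Fin D → ZMod l) × Fin n → ℝ)
    (x : (Fin D × Fin n → ℝ) × (Fin dc.M → ℝ))
    (hu : ∀ p, uu F dc x p = cons D l C p + ∑ i, a i * dc.b i p + grd n D l ζ p) :
    gA (fun z => F (dc.ch z)) x = ∑ j, a j ^ 2 := by
  unfold gA
  refine Finset.sum_congr rfl fun j _ => ?_
  rw [fderiv_ch hf hF hB]
  have h1 : ∀ p, dc.xi (0, Pi.single j 1) p = dc.b j p := by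
    intro p
    simp [Dec.xi, cons, Pi.single_apply]
  simp only [h1]
  rw [u_b dc C a ζ hu]

omit hf hF in
lemma uu_sq (x : (Fin D × Fin n → ℝ) × (Fin dc.M → ℝ)) :
    ∑ p, uu F dc x p ^ 2 ≤ ∑ e, ∑ a, dlink B e a F (dc.ch x) ^ 2 ∧
    (1 - 4 * nx x) * ∑ e, ∑ a, dlink B e a F (dc.ch x) ^ 2 ≤ ∑ p, uu F dc x p ^ 2 := by
  rw [Fintype.sum_prod_type (f := fun p => uu F dc x p ^ 2)]
  have hh : ∀ e : Link D l, ∑ a, uu F dc x (e, a) ^ 2 =
      n2 (zc B (-fun a => dc.xi x (e, a)) (fun a => dlink B e a F (dc.ch x))) := by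
    intro e
    unfold n2
    rfl
  constructor
  · refine Finset.sum_le_sum fun e _ => ?_
    rw [hh]
    exact n2_zc_le hB (-fun a => dc.xi x (e, a)) (fun a => dlink B e a F (dc.ch x))
  · rw [Finset.mul_sum]
    refine Finset.sum_le_sum fun e _ => ?_
    have h1 := n2_zc_ge hB (-fun a => dc.xi x (e, a)) (fun a => dlink B e a F (dc.ch x))
    rw [hh]
    refine le_trans ?_ h1
    have h2 : n2 (-fun a => dc.xi x (e, a)) ≤ nx x := by
      rw [← xi_sq, Fintype.sum_prod_type (f := fun p => dc.xi x p ^ 2)]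
      unfold n2
      simp only [Pi.neg_apply, neg_sq]
      exact Finset.single_le_sum (f := fun e => ∑ a, dc.xi x (e, a) ^ 2)
        (fun _ _ => Finset.sum_nonneg fun _ _ => sq_nonneg _) (Finset.mem_univ e)
    have h3 : 0 ≤ n2 (fun a => dlink B e a F (dc.ch x)) :=
      Finset.sum_nonneg fun _ _ => sq_nonneg _
    have h4 : ∑ a, dlink B e a F (dc.ch x) ^ 2 = n2 (fun a => dlink B e a F (dc.ch x)) := rfl
    rw [h4]
    nlinarith

/-- the gradient part is small -/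
lemma grd_small (hg : GaugeInv F) (ζ : (Fin D → ZMod l) × Fin n → ℝ)
    (x : (Fin D × Fin n → ℝ) × (Fin dc.M → ℝ)) :
    (∑ p, grd n D l ζ p * uu F dc x p) ^ 2 ≤
      (∑ e, ∑ a, dlink B e a F (dc.ch x) ^ 2) *
        (8 * nx x * (∑ p, grd n D l ζ p ^ 2 + Fintype.card (Link D l) * n2 ζ)) := by
  set g := grd n D l ζ with hgd
  set w : Link D l → Fin n → ℝ := fun e a => dlink B e a F (dc.ch x) with hw
  set y : Link D l → Fin n → ℝ := fun e a => dc.xi x (e, a) with hy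
  set d1 : Link D l → Fin n → ℝ := fun e a => zc B (y e) (fun a => g (e, a)) a - g (e, a) with hd1
  set d2 : Link D l → Fin n → ℝ := fun e a =>
    Ad B (eG B (y e)) (fun a => ζ (e.1 + unitv e.2, a)) a - ζ (e.1 + unitv e.2, a) with hd2
  have h1 : ∑ p, g p * uu F dc x p = ∑ e, ∑ a, w e a * (d1 e a - d2 e a) := by
    have h2 : ∑ p, g p * uu F dc x p = ∑ e, ∑ a, w e a * zc B (y e) (fun a => g (e, a)) a := by
      rw [Fintype.sum_prod_type (f := fun p => g p * uu F dc x p)]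
      refine Finset.sum_congr rfl fun e _ => ?_
      exact zc_adj (B := B) (y e) (fun a => g (e, a)) (w e)
    have h3 := gauge_zero hf hF hB hg ζ (dc.ch x)
    have h4 : ∑ e, ∑ a, w e a * (d1 e a - d2 e a) = ∑ e, ∑ a, w e a * zc B (y e)
        (fun a => g (e, a)) a + ∑ e : Link D l, ∑ a, (ζ (e.1, a) -
          Ad B (dc.ch x e) (fun a => ζ (e.1 + unitv e.2, a)) a) * dlink B e a F (dc.ch x) := by
      rw [← Finset.sum_add_distrib]
      refine Finset.sum_congr rfl fun e _ => ?_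
      rw [← Finset.sum_add_distrib]
      refine Finset.sum_congr rfl fun a _ => ?_
      have h5 : dc.ch x e = eG B (y e) := rfl
      have h6 : g (e, a) = ζ (e.1 + unitv e.2, a) - ζ (e.1, a) := rfl
      have h7 : d1 e a = zc B (y e) (fun a => g (e, a)) a - g (e, a) := rfl
      have h8 : d2 e a = Ad B (eG B (y e)) (fun a => ζ (e.1 + unitv e.2, a)) a -
        ζ (e.1 + unitv e.2, a) := rfl
      have h9 : dlink B e a F (dc.ch x) = w e a := rfl
      rw [h5, h7, h8, h9]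
      linear_combination (-w e a) * h6
    rw [h2, h4, h3, add_zero]
  have hc : (∑ e, ∑ a, w e a * (d1 e a - d2 e a)) ^ 2 ≤
      (∑ e, ∑ a, w e a ^ 2) * (∑ e, ∑ a, (d1 e a - d2 e a) ^ 2) := by
    have := Finset.sum_mul_sq_le_sq_mul_sq (Finset.univ : Finset (Link D l × Fin n))
      (fun p => w p.1 p.2) (fun p => d1 p.1 p.2 - d2 p.1 p.2)
    rwa [Fintype.sum_prod_type (f := fun p : Link D l × Fin n =>
        w p.1 p.2 * (d1 p.1 p.2 - d2 p.1 p.2)),
      Fintype.sum_prod_type (f := fun p : Link D l × Fin n => w p.1 p.2 ^ 2),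
      Fintype.sum_prod_type (f := fun p : Link D l × Fin n =>
        (d1 p.1 p.2 - d2 p.1 p.2) ^ 2)] at this
  rw [h1]
  refine hc.trans ?_
  have hW : 0 ≤ ∑ e, ∑ a, w e a ^ 2 :=
    Finset.sum_nonneg fun _ _ => Finset.sum_nonneg fun _ _ => sq_nonneg _
  refine mul_le_mul_of_nonneg_left ?_ hW
  have hyn : ∀ e, n2 (y e) ≤ nx x := by
    intro e
    rw [← xi_sq, Fintype.sum_prod_type (f := fun p => dc.xi x p ^ 2)]
    exact Finset.single_le_sum (f := fun e => ∑ a, dc.xi x (e, a) ^ 2)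
      (fun _ _ => Finset.sum_nonneg fun _ _ => sq_nonneg _) (Finset.mem_univ e)
  have hnx : 0 ≤ nx x := by
    unfold nx n2
    positivity
  have hz : 0 ≤ n2 ζ := Finset.sum_nonneg fun _ _ => sq_nonneg _
  have hzn : ∀ v : Fin D → ZMod l, n2 (fun a => ζ (v, a)) ≤ n2 ζ := by
    intro v
    unfold n2
    rw [Fintype.sum_prod_type (f := fun p => ζ p ^ 2)]
    exact Finset.single_le_sum (f := fun e => ∑ a, ζ (e, a) ^ 2)
      (fun _ _ => Finset.sum_nonneg fun _ _ => sq_nonneg _) (Finset.mem_univ v)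
  have h7 : ∀ e, ∑ a, (d1 e a - d2 e a) ^ 2 ≤ 8 * nx x * ∑ a, g (e, a) ^ 2 +
      8 * nx x * n2 ζ := by
    intro e
    have e1 : ∑ a, (d1 e a - d2 e a) ^ 2 ≤ 2 * n2 (d1 e) + 2 * n2 (d2 e) := by
      unfold n2
      rw [Finset.mul_sum, Finset.mul_sum, ← Finset.sum_add_distrib]
      refine Finset.sum_le_sum fun a _ => ?_
      nlinarith [sq_nonneg (d1 e a + d2 e a)]
    have e2 : n2 (d1 e) ≤ 4 * n2 (y e) * n2 (fun a => g (e, a)) := zc_sub hB _ _
    have e3 : n2 (d2 e) ≤ 4 * n2 (y e) * n2 (fun a => ζ (e.1 + unitv e.2, a)) := Ad_sub hB _ _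
    have e4 : n2 (y e) * n2 (fun a => g (e, a)) ≤ nx x * n2 (fun a => g (e, a)) :=
      mul_le_mul_of_nonneg_right (hyn e) (Finset.sum_nonneg fun _ _ => sq_nonneg _)
    have e5 : n2 (y e) * n2 (fun a => ζ (e.1 + unitv e.2, a)) ≤ nx x * n2 ζ :=
      mul_le_mul (hyn e) (hzn _) (Finset.sum_nonneg fun _ _ => sq_nonneg _) hnx
    have e6 : ∑ a, g (e, a) ^ 2 = n2 (fun a => g (e, a)) := rfl
    rw [e6]
    nlinarith
  calc ∑ e, ∑ a, (d1 e a - d2 e a) ^ 2
      ≤ ∑ e : Link D l, (8 * nx x * ∑ a, g (e, a) ^ 2 + 8 * nx x * n2 ζ) :=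
        Finset.sum_le_sum fun e _ => h7 e
    _ = 8 * nx x * (∑ p, g p ^ 2 + Fintype.card (Link D l) * n2 ζ) := by
        rw [Finset.sum_add_distrib, ← Finset.mul_sum, Fintype.sum_prod_type (f := fun p => g p ^ 2),
          Finset.sum_const, Finset.card_univ, nsmul_eq_mul]
        ring

omit hf hF hB

theorem t_KIN (h0 : S_EXPG) : S_KIN := by
  intro N n D l _ G hG B dc
  have hB : HE B := h0 N n G hG B
  obtain ⟨K0, hK0, hinv⟩ := bdd_inv (grd n D l)
  set L : ℝ := (Fintype.card (Link D l) : ℝ) with hL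
  have hL0 : 0 ≤ L := by positivity
  refine ⟨4 + 8 * (1 + L * K0), 1, by positivity, one_pos, ?_⟩
  rintro F ⟨f, hf, hF⟩ hg x -
  obtain ⟨C, a, ζ, hd⟩ := dc.hodge (uu F dc x)
  have hu : ∀ p, uu F dc x p = cons D l C p + ∑ i, a i * dc.b i p + grd n D l ζ p := hd
  rw [gC_ch hf hF hB dc C a ζ x hu, gA_ch hf hF hB dc C a ζ x hu]
  have h1 := u_sq dc C a ζ hu
  obtain ⟨h2, h3⟩ := uu_sq (F := F) hB dc x
  obtain ⟨ζ', hz, hz2⟩ := hinv ζ
  have h4 := grd_small hf hF hB dc hg ζ' x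
  rw [u_grd dc C a ζ hu, hz] at h4
  set W := ∑ e, ∑ a, dlink B e a F (dc.ch x) ^ 2 with hW
  set G2 := ∑ p, grd n D l ζ p ^ 2 with hG2
  have hG0 : 0 ≤ G2 := Finset.sum_nonneg fun _ _ => sq_nonneg _
  have hW0 : 0 ≤ W := Finset.sum_nonneg fun _ _ => Finset.sum_nonneg fun _ _ => sq_nonneg _
  have hnx : 0 ≤ nx x := by
    unfold nx n2
    positivity
  have h5 : ∑ p, grd n D l ζ p * grd n D l ζ p = G2 :=
    Finset.sum_congr rfl fun p _ => (sq _).symm
  rw [h5] at h4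
  have h6 : n2 (grd n D l ζ) = G2 := rfl
  rw [h6] at hz2
  have h7 : G2 ^ 2 ≤ W * (8 * nx x * (1 + L * K0)) * G2 := by
    refine h4.trans ?_
    have e1 : G2 + L * n2 ζ' ≤ (1 + L * K0) * G2 := by nlinarith
    calc W * (8 * nx x * (G2 + L * n2 ζ')) ≤ W * (8 * nx x * ((1 + L * K0) * G2)) := by gcongr
      _ = W * (8 * nx x * (1 + L * K0)) * G2 := by ring
  have h8 : G2 ≤ W * (8 * nx x * (1 + L * K0)) := by
    by_cases hz0 : G2 = 0
    · rw [hz0]; positivity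
    · have hpos : 0 < G2 := lt_of_le_of_ne hG0 (Ne.symm hz0)
      rw [sq] at h7
      exact le_of_mul_le_mul_right h7 hpos
  have h9 : (4 + 8 * (1 + L * K0)) * nx x * W = 4 * nx x * W + W * (8 * nx x * (1 + L * K0)) := by
    ring
  rw [h9, abs_le]
  have h10 : 0 ≤ 4 * nx x * W := by positivity
  constructor
  · nlinarith
  · nlinarith

end

end Pool.Agent.Q230.LU
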